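import Mathlib
import Pool.Agent.L7h48.SG.Rega
import Pool.Agent.L7h15.SG.Al

/-!
# Project SGP (successor of SG, MP_b4b3cb_nt): a positive proportion of fields at `p = 3`

THEOREM. For at least one quarter of the squarefree numbers `D`, `D ≡ 11` modulo `12` (so `3` splits in
`K = ℚ(√-D)`), the absolute Galois group of `K(μ_3)` is a level (`Lev 3 (Mu 3 s) ι` for every `ι`), so
the parity theorem of SG holds for all `3`-adic representations over `K`.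

Part 1 (algebra): it is enough that (`Good`) every `a ∈ K` whose cube roots are unramified outside `3` and
which is a cube in `K_v = ℚ_3` is a cube in `K`.
Part 2 (ideals): if `K` is not `Good`, the equation `x² + D y² = 4 · 3^j m³`, `j ≤ 1`, has a solution
`Tri D j m x y` with `m ≤ (2/π) √D` and with conditions modulo `4`, `27` and the squares of the common
prime factors.
Part 3 (counting): the number of the `D ≤ X` with such a solution is at most `X / 18 + o(X)`; the number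
of the squarefree `D ≡ 11` modulo `12`, `D ≤ X`, is at least `(75/1000) X - o(X)`; `1/18 < 3/4 · 75/1000`.
-/

set_option autoImplicit false

namespace Pool.Agent.L7h48.SGP

open Pool.Agent.Y715.Gi (QB KK GK)
open Pool.Agent.Y715.Nr Pool.Agent.W237.RK
open Pool.Agent.Y715.Df (Cmp)
open Pool.Agent.Z384 (II DD DDs)
open Pool.Agent.L7h48.SG
open Pool.Agent.L7h15.SG (em pid)
open NumberField

/-! ## Part 1: algebra -/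

/-- every `a ∈ K` whose cube roots are unramified outside `3` and which is a cube at `ι₀` is a cube -/
def Good (s : QB) (ι₀ : QB →ₐ[ℚ] PadicAlgCl 3) : Prop :=
  ∀ a ∈ KK s, a ≠ 0 → (∀ x : QB, x ^ 3 = a → RR x) →
    (∃ t : ℚ_[3], algebraMap ℚ_[3] (PadicAlgCl 3) t ^ 3 = ι₀ a) → ∃ y ∈ KK s, y ^ 3 = a

/-- **[U1]** (variant of `S_D1`, `Pool/Agent/L7h79/SG/D1.lean`) the `p`-units of a totally complex number
field of degree `2 m` with a finite set `T` of primes above `p`: `m - 1 + #T` elements which are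
independent modulo `p`-th powers (no root of unity is used; no hypothesis on `μ_p`). -/
def S_U1 : Prop :=
  ∀ (p : ℕ) [Fact p.Prime] (N : Type) [Field N] [NumberField N] (m : ℕ),
    Module.finrank ℚ N = 2 * m → InfinitePlace.nrRealPlaces N = 0 →
    ∀ T : Finset (Ideal (𝓞 N)), (∀ P ∈ T, P.IsPrime ∧ (p : 𝓞 N) ∈ P) →
      ∃ u : Fin (m - 1 + T.card) → N, (∀ i, u i ≠ 0) ∧
        (∀ i, ∃ k : ℕ, IsIntegral ℤ (p ^ k * u i) ∧ IsIntegral ℤ (p ^ k * (u i)⁻¹)) ∧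
        ∀ e : Fin (m - 1 + T.card) → ℕ, (∃ y : N, y ^ p = ∏ i, u i ^ e i) → ∀ i, p ∣ e i

/-- **[U2]** (assume U1; variant of `S_D2`, `Pool/Agent/L7h22/SG/D2.lean`, `L7h60/SG/D2.lean`) the same
for the fixed field `N` of an open subgroup `U` of `G_K`; the places are given by embeddings `ι i` which
give different absolute values of `N` (the primes `{x : ‖ι i x‖ < 1}` of `𝓞 N` are then different: an
absolute value which extends the `p`-adic one is determined by its prime: if `ord_P x = n` and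
`ord_P p = e` then `x^e / p^n` is a quotient of elements of `𝓞 N ∖ P`). -/
def S_U2 : Prop :=
  ∀ (p : ℕ) [Fact p.Prime] (s : QB) (d : ℕ), 0 < d → s ^ 2 = -(d : QB) → ∀ U : Subgroup (GK s),
    IsOpen (U : Set (GK s)) → ∀ (k : ℕ) (ι : Fin k → (QB →ₐ[ℚ] PadicAlgCl p)),
    (∀ i j, i ≠ j → ∃ x : QB, (∀ σ ∈ U, σ x = x) ∧ ‖ι i x‖ ≠ ‖ι j x‖) →
    ∃ u : Fin (U.index - 1 + k) → QB, (∀ i, ∀ σ ∈ U, σ (u i) = u i) ∧ (∀ i, PUnit p (u i)) ∧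
      ∀ e : Fin (U.index - 1 + k) → ℕ,
        (∃ y : QB, (∀ σ ∈ U, σ y = y) ∧ y ^ p = ∏ i, u i ^ e i) → ∀ i, p ∣ e i

/-- **[LC]** (variant of `S_C1`, `Pool/Agent/L7h22/SG/C1.lean`) a finite extension of degree `m` of `ℚ_p`
without nontrivial `p`-th roots of unity has at most `p ^ (m + 1)` classes modulo `p`-th powers. -/
def S_LC : Prop :=
  ∀ (p : ℕ) [Fact p.Prime], p ≠ 2 →
  ∀ L : IntermediateField ℚ_[p] (PadicAlgCl p), FiniteDimensional ℚ_[p] L →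
    (∀ ζ ∈ L, ζ ^ p = 1 → ζ = 1) →
    ∃ R : Finset (PadicAlgCl p), R.card ≤ p ^ (Module.finrank ℚ_[p] L + 1) ∧
      ∀ x ∈ L, x ≠ 0 → ∃ r ∈ R, ∃ y ∈ L, r ∈ L ∧ r ≠ 0 ∧ x = r * y ^ p

/-- **[INJ]** `ψ` is a homomorphism `G_K → ZMod 3` unramified outside `3`, `U = ker ψ`, `M` its field. If `K`
is `Good` at `ι₀`, an element `a` of `M` whose cube roots are unramified outside `3` and which is a cube at
all the places of `M` above `v` is a cube in `M`.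
Proof. If `ψ = 0` this is `Good` (a cube root fixed by `DDs ι₀` has its image in `ℚ_3`, because `ι₀ s ∈ ℚ_3`,
`exists_cmp`). Let `ψ ρ = 1`. Let `c(b)` mean: `b = y³` for some `y ≠ 0` in `M`. Let `a₀ = a`,
`a_{i+1} = ρ a_i / a_i`; `a₃ = (ρ a / ρ² a)³` since `ρ³ ∈ U`. The hypotheses on `a` hold for all the `a_i`, so
it is enough to show that `c(ρ b / b)` implies `c(b)`. Let `ρ b = b z³`, `n = z ρ(z) ρ²(z)`. Then `n ∈ K`,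
`n³ = 1`, so `n = 1` (`μ_3 ⊄ K` because `μ_3 ⊄ ℚ_3`, `neg_three_not_sq` in `L7h48/SG/Regc.lean`).
Hilbert 90: by the linear independence of `1, ρ, ρ²` on `M` there is `θ ∈ M` such that
`e = θ + z ρ θ + z ρ(z) ρ² θ ≠ 0`, and `z ρ(e) = e`. So `b' = b e³` is in `K`. Its cube roots are
unramified outside `3`: for `e` use `norm_gen` as in `L7h48/SG/Regd.lean` (the inertia groups are in `U`).
`b'` is a cube at `ι₀`: let `y³ = b`, `y` fixed by `DDs ι₀ ∩ U`, `y' = y e`. For `δ ∈ DDs ι₀` one has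
`δ y' = ζ_δ y'`, `ζ_δ³ = 1`, and `δ y'` is fixed by `DDs ι₀ ∩ U`, so `ζ_δ` is; `τ₀³ ∈ DDs ι₀ ∩ U` does not fix
`√-3` if `τ₀ ∈ DDs ι₀` does not (`exists_neg_tau` in Regc), so `ζ_δ = 1`. By `Good` `b' = y₀³`, `y₀ ∈ K`.
About 200 lines. -/
def S_INJ : Prop :=
  ∀ (s : QB) (D : ℕ), Spl 3 s D → ∀ ι₀ : QB →ₐ[ℚ] PadicAlgCl 3, Good s ι₀ →
    ∀ ψ ∈ HP 3 (⊤ : Subgroup (GK s)), (∀ σ, Ram 3 σ → ψ σ = 0) →
    ∀ a : QB, a ≠ 0 → (∀ x : QB, x ^ 3 = a → RR x) → (∀ σ, ψ σ = 0 → σ a = a) →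
    (∀ g : GK s, ∃ y : QB, y ^ 3 = g a ∧ ∀ σ ∈ DDs ι₀, ψ σ = 0 → σ y = y) →
      ∃ y : QB, (∀ σ, ψ σ = 0 → σ y = y) ∧ y ^ 3 = a

/-- **[TRV]** (assume U2, LC, INJ) a cyclic cubic extension `M` of `K`, unramified outside `3`, in which the
place given by `ι₁` splits, does not exist if `K` is `Good`.
Proof. Let `ψ ≠ 0`, `U = ker ψ`, `ψ ρ = 1`, `ι₀` with `ι₀ s = - ι₁ s` (`ι₀ = ι₁ ∘ c`). `DDs ι₁ ≤ U`, so
`ι₁ g` maps `M` to `ℚ_3` for all `g`; the embeddings `ι₁, ι₁ρ, ι₁ρ²` give different absolute values on `M`: if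
`‖ι₁ x‖ = ‖ι₁ ρ x‖` for all `x ∈ M`, take `x` with `ρ x ≠ x`, `‖ι₁ x‖ ≤ 1`, and integers `n` near
`ι₁ x`: `‖ι₁ ρ x - n‖ = ‖ι₁ x - n‖` is small, so `ι₁ ρ x = ι₁ x`. `ι₀ g` and `ι₁ g'` are
different on `K` (`x = s - n`, `n` near `ι₀ s`). (a) `DDs ι₀ ⊄ U`: then `DDs ι₀ · U = G_K`; U2 for the
three embeddings `ι₁ ρ^i` gives `5 = 3 - 1 + 3` elements `u_i` of `M`, `3`-units, independent modulo cubes. The
field `L` of the elements fixed by `{τ : ∀ σ ∈ U-part ...}` (`ι₀ M` generates it) has degree `3` over `ℚ_3` and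
does not contain `μ_3`, so by LC at most `3^4` classes: two different products `∏ u_i^{e_i}`,
`e_i ∈ {0,1,2}`, are in the same class, their quotient is a local cube at the only place above `v`, so by
INJ a cube in `M`, contradiction. (b) `DDs ι₀ ≤ U`: then `ι₀ g` maps `M` to `ℚ_3` for all `g`; six
embeddings, `8 = 3 - 1 + 6` elements, and `(3²)³` classes in `ℚ_3 × ℚ_3 × ℚ_3` (LC for `L = ⊥`). About 300
lines. (For a `3`-unit `a` the cube roots satisfy `RR`, all the absolute values are one.) -/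
def S_TRV : Prop :=
  ∀ (s : QB) (D : ℕ), Spl 3 s D → (∀ ι₀ : QB →ₐ[ℚ] PadicAlgCl 3, Good s ι₀) →
    ∀ (ι₁ : QB →ₐ[ℚ] PadicAlgCl 3), ∀ ψ ∈ HP 3 (⊤ : Subgroup (GK s)),
      (∀ σ, Ram 3 σ → ψ σ = 0) → (∀ σ ∈ DDs ι₁, ψ σ = 0) → ψ = 0

/-- **[GL]** (assume TRV, D3) `Good` implies that `G_{K(μ_3)}` is a level. -/
def S_GL : Prop :=
  ∀ (s : QB) (D : ℕ), Spl 3 s D → (∀ ι₀ : QB →ₐ[ℚ] PadicAlgCl 3, Good s ι₀) →
    ∀ ι₀ : QB →ₐ[ℚ] PadicAlgCl 3, Lev 3 (Mu 3 s) ι₀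

/-! ## Part 2: ideals -/

/-- the solutions of `x² + D y² = 4 · 3^j m³` -/
structure Tri (D j m x y : ℕ) : Prop where
  eq : x ^ 2 + D * y ^ 2 = 4 * (3 ^ j * m ^ 3)
  m0 : 0 < m
  y0 : 0 < y
  two : (y % 2 = 1 ∧ x % 2 = 1) ∨ (y % 4 = 2 ∧ x % 4 = 0) ∨ (y % 4 = 0 ∧ x % 4 = 2)
  three : (j = 0 ∧ m % 3 = 1 ∧ y % 9 = 0) ∨ (j = 0 ∧ m % 3 = 2 ∧ x % 9 = 0 ∧ y % 3 ≠ 0) ∨
    (j = 0 ∧ m % 3 = 0 ∧ (x % 9 = 1 ∨ x % 9 = 8) ∧ y % 3 ≠ 0) ∨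
    (j = 1 ∧ m % 3 = 1 ∧ (x % 9 = 4 ∨ x % 9 = 5) ∧ y % 3 ≠ 0) ∨
    (j = 1 ∧ m % 3 = 2 ∧ (x % 9 = 2 ∨ x % 9 = 7) ∧ y % 3 ≠ 0) ∨
    (j = 1 ∧ m % 3 = 0 ∧ (x % 9 = 1 ∨ x % 9 = 8) ∧ y % 3 ≠ 0) ∨
    (j = 1 ∧ m % 3 = 0 ∧ (x % 27 = 3 ∨ x % 27 = 24) ∧ y % 3 = 0 ∧ y % 9 ≠ 0)
  big : ∀ q : ℕ, q.Prime → 5 ≤ q → q ∣ y → q ∣ m → ¬ q ^ 2 ∣ y ∧ q ^ 2 ∣ x

/-- **[MK]** Minkowski's bound for `ℚ(√-D)`: Mathlib's `exists_ideal_in_class_of_norm_le` and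
`|discr K| ≤ D` (the discriminant of the basis `1, (1 + s)/2` of integral elements is `-D`).
About 120 lines. -/
def S_MK : Prop :=
  ∀ D : ℕ, Squarefree D → D % 4 = 3 → ∀ s : QB, s ^ 2 = -(D : QB) → ∀ C : ClassGroup (𝓞 (KK s)),
    ∃ I : nonZeroDivisors (Ideal (𝓞 (KK s))), ClassGroup.mk0 I = C ∧
      (Ideal.absNorm (I : Ideal (𝓞 (KK s))) : ℝ) ≤ 2 / Real.pi * √(D : ℝ)

/-- the data given by a field which is not `Good`; `pid s ι₁` is the conjugate of the prime `pid s ι₀` -/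
structure Dta (D : ℕ) (s : QB) (ι₀ ι₁ : QB →ₐ[ℚ] PadicAlgCl 3) (I : Ideal (𝓞 (KK s)))
    (b : 𝓞 (KK s)) (j : ℕ) : Prop where
  j1 : j ≤ 1
  I0 : I ≠ ⊥
  b0 : b ≠ 0
  span : Ideal.span {b} = I ^ 3 * pid s ι₁ ^ j
  prim : ∀ q : ℕ, q.Prime → ¬ Ideal.span {(q : 𝓞 (KK s))} ∣ I
  cube : ∃ t : ℚ_[3], algebraMap ℚ_[3] (PadicAlgCl 3) t ^ 3 = ι₀ (em s b)
  not_cube : ¬ ∃ y ∈ KK s, y ^ 3 = em s b

/-- **[ID]** (assume MK) if `K` is not `Good` at `ι₀` there are `I`, `b`, `j` with small norm.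
Proof. Let `a` be a counterexample to `Good`, `a` integral (multiply by the cube of an integer). For a
prime `P ∤ 3` of `𝓞 K` one has `3 ∣ ord_P a`: there is `ι` at `q = P ∩ ℤ` with `‖ι z‖ < 1` iff `z ∈ P`, so
`‖ι z‖ = q^(-ord_P z / e)`, `e ≤ 2`, and `‖ι x‖² = q^m` for `x³ = a` (`RR`). Also `3 ∣ ord_v a` as `a` is a
cube at `ι₀` (`v = pid s ι₀` is unramified: `(3) = v v̄`, `v ≠ v̄ = pid s ι₁`). If `ord_v̄ a ≡ 2` modulo `3`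
replace `a` by `a²` (also a local cube, unramified, not a cube as `a = a³ / a²`). So
`(a) = I₀³ v̄^j`, `j ≤ 1`. In the class of `I₀` choose an integral ideal `I` of minimal norm, `x I₀ = y I`;
`b = x³ a / y³`; `q ∤ I` by minimality (`I = q I'`), the norm is small by MK. About 300 lines. -/
def S_ID : Prop :=
  ∀ D : ℕ, Squarefree D → D % 12 = 11 → ∀ s : QB, s ^ 2 = -(D : QB) →
    ∀ ι₀ ι₁ : QB →ₐ[ℚ] PadicAlgCl 3, ι₁ s = -ι₀ s → ¬ Good s ι₀ →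
    ∃ (I : Ideal (𝓞 (KK s))) (b : 𝓞 (KK s)) (j : ℕ), Dta D s ι₀ ι₁ I b j ∧
      (Ideal.absNorm I : ℝ) ≤ 2 / Real.pi * √(D : ℝ)

/-- **[R0]** the equation. `b = (x' + y' s)/2` with integers `x' ≡ y'` modulo `2` (trace and norm of an
integral element, `D` squarefree), `x'² + D y'² = 4 N(b)`, `N(b) = absNorm (b) = 3^j m³`, `m = absNorm I`
(`absNorm v̄ = 3`); `y' ≠ 0`: otherwise `b ∈ ℤ`, `(b) = (b̄)`, so `j = 0` (compare the exponents of `v` and `v̄`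
in `I³ v̄^j = Ī³ v^j`), `I = Ī`, `I² = (m)` (`I` is a product of different ramified primes, as it is not
divisible by prime numbers), `b² = m³`, so `m = n²`, `b = ± n³` is a cube, contradiction. (Or: `b² = 3^j m³`
in `ℤ` gives `j = 0`, `b = ± n³`.) About 150 lines. -/
def S_R0 : Prop :=
  ∀ D : ℕ, Squarefree D → D % 12 = 11 → ∀ s : QB, s ^ 2 = -(D : QB) →
    ∀ (ι₀ ι₁ : QB →ₐ[ℚ] PadicAlgCl 3), ι₁ s = -ι₀ s →
    ∀ (I : Ideal (𝓞 (KK s))) (b : 𝓞 (KK s)) (j : ℕ), Dta D s ι₀ ι₁ I b j →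
      ∃ x y : ℤ, em s b = ((x : QB) + (y : QB) * s) / 2 ∧ (2 : ℤ) ∣ x - y ∧ y ≠ 0 ∧
        x ^ 2 + D * y ^ 2 = 4 * (3 ^ j * (Ideal.absNorm I : ℤ) ^ 3)

/-- **[R2]** the condition at `2`: `4 ∤ (x, y)`-part. `(2)` is squarefree (`2 ∤ D`: `2` is unramified), so
`(2) ∣ (b) = I³ v̄^j` would imply `(2) ∣ I` (`v̄ ∤ 2`). So `b / 2` is not integral: if `x = 2 x₁`, `y = 2 y₁`
then `x₁ + y₁` is odd. About 80 lines. The same for `3`, in the form: if `ι₀ b` and `ι₁ b` are both divisible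
by `27` and (`j = 1`) `ι₁ b` by `81` then `(3) ∣ I`. -/
def S_R2 : Prop :=
  ∀ D : ℕ, Squarefree D → D % 12 = 11 → ∀ s : QB, s ^ 2 = -(D : QB) →
    ∀ (ι₀ ι₁ : QB →ₐ[ℚ] PadicAlgCl 3), ι₁ s = -ι₀ s →
    ∀ (I : Ideal (𝓞 (KK s))) (b : 𝓞 (KK s)) (j : ℕ), Dta D s ι₀ ι₁ I b j →
      (∀ b' : 𝓞 (KK s), b ≠ 2 * b') ∧
      ¬ (‖ι₀ (em s b)‖ ≤ 1 / 27 ∧ ‖ι₁ (em s b)‖ ≤ 1 / 27 * (1 / 3) ^ j)

/-- **[R3]** the conditions at `3`, pure arithmetic in `ℤ_3`. `t² = -D`, `α = (x + y t)/2 = u³`,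
`β = (x - y t)/2 = 3^j w³`, `u w = m`, not both divisible by `3` (cube roots are unique in `ℚ_3`).
`j = 0`: `m ≡ 1`: `u ≡ w ≡ ± 1` modulo `3`, `y t = u³ - w³ ≡ 0` modulo `9`. `m ≡ 2`: `u ≡ -w`,
`x = u³ + w³ ≡ 0` modulo `9`, `y t ≡ 2 u³`. `3 ∣ m`: exactly one of `u, w` is a unit, `x ≡ ± 1` modulo
`9`. `j = 1`: `x = u³ + 3 w³`, `y t = u³ - 3 w³`. `m ≡ 1`: `x ≡ ± 4` modulo `9`; `m ≡ 2`: `x ≡ ± 2`;
`3 ∣ m`, `u` unit: `x ≡ ± 1` modulo `9`, `y` unit; `3 ∣ u`, `w` unit: `x ≡ ± 3`, `y t ≡ ∓ 3` modulo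
`27`. About 200 lines. -/
def S_R3 : Prop :=
  ∀ (D j m : ℕ) (x y : ℤ) (t v : ℚ_[3]), j ≤ 1 → 0 < m → D % 3 = 2 → t ^ 2 = -(D : ℚ_[3]) →
    x ^ 2 + D * y ^ 2 = 4 * (3 ^ j * (m : ℤ) ^ 3) → v ^ 3 = ((x : ℚ_[3]) + y * t) / 2 →
    ¬ (‖((x : ℚ_[3]) + y * t) / 2‖ ≤ 1 / 27 ∧ ‖((x : ℚ_[3]) - y * t) / 2‖ ≤ 1 / 27 * (1 / 3) ^ j) →
    (j = 0 ∧ m % 3 = 1 ∧ (9 : ℤ) ∣ y) ∨ (j = 0 ∧ m % 3 = 2 ∧ (9 : ℤ) ∣ x ∧ ¬ (3 : ℤ) ∣ y) ∨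
    (j = 0 ∧ m % 3 = 0 ∧ ((9 : ℤ) ∣ x - 1 ∨ (9 : ℤ) ∣ x + 1) ∧ ¬ (3 : ℤ) ∣ y) ∨
    (j = 1 ∧ m % 3 = 1 ∧ ((9 : ℤ) ∣ x - 4 ∨ (9 : ℤ) ∣ x + 4) ∧ ¬ (3 : ℤ) ∣ y) ∨
    (j = 1 ∧ m % 3 = 2 ∧ ((9 : ℤ) ∣ x - 2 ∨ (9 : ℤ) ∣ x + 2) ∧ ¬ (3 : ℤ) ∣ y) ∨
    (j = 1 ∧ m % 3 = 0 ∧ ((9 : ℤ) ∣ x - 1 ∨ (9 : ℤ) ∣ x + 1) ∧ ¬ (3 : ℤ) ∣ y) ∨
    (j = 1 ∧ m % 3 = 0 ∧ ((27 : ℤ) ∣ x - 3 ∨ (27 : ℤ) ∣ x + 3) ∧ (3 : ℤ) ∣ y ∧ ¬ (9 : ℤ) ∣ y)

/-- **[RQ]** the condition at the primes `q ≥ 5`. Let `q ∣ y`, `q ∣ m`, so `q ∣ x` and `b = q b'`,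
`(q) ∣ I³ v̄^j`. If `q ∤ D` then `(q)` is squarefree and prime to `3`, so `(q) ∣ I`, contradiction. So
`q ∣ D`, `(q) = P²` (`q ∥ D`), `P ∥ I`, so `q ∥ m`. In `x² + D y² = 4 · 3^j m³` the exponent of `q` is
`3` on the right side, it is even in `x²` and odd in `D y²`, so `q ∥ y` and `q² ∣ x`. About 200 lines. -/
def S_RQ : Prop :=
  ∀ D : ℕ, Squarefree D → D % 12 = 11 → ∀ s : QB, s ^ 2 = -(D : QB) →
    ∀ (ι₀ ι₁ : QB →ₐ[ℚ] PadicAlgCl 3), ι₁ s = -ι₀ s →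
    ∀ (I : Ideal (𝓞 (KK s))) (b : 𝓞 (KK s)) (j : ℕ), Dta D s ι₀ ι₁ I b j →
      ∀ x y : ℤ, em s b = ((x : QB) + (y : QB) * s) / 2 → y ≠ 0 →
        x ^ 2 + D * y ^ 2 = 4 * (3 ^ j * (Ideal.absNorm I : ℤ) ^ 3) →
        ∀ q : ℕ, q.Prime → 5 ≤ q → (q : ℤ) ∣ y → q ∣ Ideal.absNorm I →
          ¬ (q : ℤ) ^ 2 ∣ y ∧ (q : ℤ) ^ 2 ∣ x

/-- **[TRI]** (assume ID, R0, R2, R3, RQ) a field which is not `Good` gives a solution. -/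
def S_TRI : Prop :=
  ∀ D : ℕ, Squarefree D → D % 12 = 11 → ∀ s : QB, s ^ 2 = -(D : QB) →
    ∀ ι₀ : QB →ₐ[ℚ] PadicAlgCl 3, ¬ Good s ι₀ →
      ∃ j ≤ 1, ∃ m x y : ℕ, Tri D j m x y ∧ (m : ℝ) ≤ 2 / Real.pi * √(D : ℝ)

/-! ## Part 3: counting

`c = π / 2`, `A = 4 · 3^j m³`. For `D ≤ X`, `m ≤ √D / c`, `D y² = A - x²` one has
`√(A - X y²) ≤ x ≤ √(A - c² m² y²)` (`√` of a negative number is zero), an interval of length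
`y² Hh A (c m) √X y`, `m ≤ M = √X / c` and `y ≤ 2 X^(1/4)`. The `x` are in few classes (XC), with mean density
`Rm j y / y²` over `m` (WM), and `∑_y Rm(j,y) Hh(y)` is computed (YS):
`∫_0^∞ Hh A P Q = (π/2) (Q - P)`, the mean value of `Rm 0 y + Rm 1 y` is `1/9`, and
`(1/9) (π/2) ∑_{m ≤ M} (√X - c m) ≤ X / 18`. -/

/-- the factor of the primes `q ≥ 5` -/
noncomputable def Wt (j m y : ℕ) : ℝ :=
  ∏ q ∈ y.primeFactors.filter (5 ≤ ·), (1 + (jacobiSym ((3 ^ j * m : ℕ) : ℤ) q : ℝ))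

/-- the factor at `2` -/
noncomputable def k2 (j m y : ℕ) : ℝ :=
  if y % 2 = 1 then 1 / 2
  else if y % 4 = 2 then (if (3 ^ j * m ^ 3) % 4 = 3 then 1 else 0)
  else if y % 8 = 4 then (if (3 ^ j * m ^ 3) % 8 = 5 then 2 else 0)
  else (if (3 ^ j * m ^ 3) % 8 = 1 then 2 else 0)

/-- the factor at `3` -/
noncomputable def k3 (j m y : ℕ) : ℝ :=
  if j = 0 then
    (if y % 3 ≠ 0 then (if m % 3 = 2 then 1 / 9 else if m % 3 = 0 then 2 / 9 else 0)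
      else if y % 9 = 0 then (if m % 3 = 1 then 2 / 3 else 0) else 0)
  else
    (if y % 3 ≠ 0 then 2 / 9
      else if y % 9 ≠ 0 then (if m % 3 = 0 then 2 / 3 else 0) else 0)

/-- the mean value of `k2 j m y * k3 j m y` over `m` -/
noncomputable def Rm (j y : ℕ) : ℝ :=
  (if y % 2 = 1 then 1 / 2 else 1 / 4) *
    (if j = 0 then (if y % 3 ≠ 0 then 1 / 9 else if y % 9 = 0 then 2 / 9 else 0)
      else (if y % 9 ≠ 0 then 2 / 9 else 0))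

/-- the set `S` is contained in `r` classes modulo `Q` -/
def Cov (S : ℕ → Prop) (Q : ℕ) (r : ℝ) : Prop :=
  ∃ F : Finset ℕ, (F.card : ℝ) ≤ r ∧ ∀ x, S x → x % Q ∈ F

/-- **[CV]** combination of coprime moduli (`x % (Q Q')` is determined by `x % Q`, `x % Q'`), and the number
of the elements of `S` in an interval. About 60 lines. -/
def S_CV : Prop :=
  (∀ (S : ℕ → Prop) (Q Q' : ℕ) (r r' : ℝ), 0 < Q → 0 < Q' → Nat.Coprime Q Q' → Cov S Q r → Cov S Q' r' →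
    Cov S (Q * Q') (r * r')) ∧
  ∀ (S : ℕ → Prop) (Q : ℕ) (r α β : ℝ), 0 < Q → α ≤ β → Cov S Q r →
    ∀ T : Finset ℕ, (∀ x ∈ T, S x ∧ α ≤ x ∧ (x : ℝ) ≤ β) → (T.card : ℝ) ≤ r * ((β - α) / Q + 1)

/-- **[CQ]** the primes `q ≥ 5`: `q^e ∥ y`. If `q ∤ m`: `x² ≡ 4 · 3^j m³` modulo `q^(2e)`, a unit; two
solutions satisfy `q^(2e) ∣ (x - z) (x + z)`, `q ∤ 2 z`, so `x ≡ ± z`; no solution if `(3^j m / q) = -1`.
If `q ∣ m`: `e = 1` and `q² ∣ x` (`Tri.big`). About 100 lines. -/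
def S_CQ : Prop :=
  ∀ (j m y : ℕ), j ≤ 1 → 0 < m → 0 < y → ∀ q : ℕ, q.Prime → 5 ≤ q → q ∣ y →
    Cov (fun x => ∃ D, D % 12 = 11 ∧ Tri D j m x y) (q ^ (2 * y.factorization q))
      (1 + (jacobiSym ((3 ^ j * m : ℕ) : ℤ) q : ℝ))

/-- **[C2]** the prime `2`: the density is `k2 / 4^α`, `2^α ∥ y`. `y` odd: `x` is odd, `Q = 2`. `y = 2 y₁`,
`y₁` odd: `4 ∣ x`, and `D y₁² + 4 (x/4)² = 3^j m³` gives `3^j m³ ≡ 3` modulo `4`. `4 ∣ y`: `x = 2 x₁`, `x₁`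
odd, `x₁² + D (y/2)² = n = 3^j m³`, `D (y/2)² ≡ 3 · 4^(α-1)` modulo `4^α`; so `n ≡ 5` modulo `8` for `α = 2`
and `n ≡ 1` for `α ≥ 3`, and `x₁² ≡ n - 3 · 4^(α-1)` modulo `4^α`: two solutions satisfy
`2^(2α) ∣ (x₁ - z) (x₁ + z)`, one factor is `2` modulo `4`, so `x₁ ≡ ± z` modulo `2^(2α-1)`: `4` classes
modulo `4^α`, `4` classes of `x` modulo `Q = 2 · 4^α`. If `k2 = 0` there are no `x`. About 150 lines. -/
def S_C2 : Prop :=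
  ∀ (j m y : ℕ), j ≤ 1 → 0 < m → 0 < y → ∃ (k : ℕ) (r : ℝ), 0 ≤ r ∧ r ≤ 4 ∧
    r / (2 ^ k : ℕ) = k2 j m y / (4 : ℝ) ^ (y.factorization 2) ∧
    Cov (fun x => ∃ D, D % 12 = 11 ∧ Tri D j m x y) (2 ^ k) r

/-- **[C3]** the prime `3`: the density is `k3 / 9^β`, `3^β ∥ y`. All cases with `β ≤ 1` are in `Tri.three`
(`Q = 9` or `27`). `j = 0`, `9 ∣ y`: `m ≡ 1` modulo `3`, `D y² ≡ 2 · 9^β` modulo `3^(2β+1)` (`D ≡ 2`), so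
`x² ≡ 4 m³ - 2 · 9^β`, a unit, modulo `Q = 3^(2β+1)`: at most `2` classes. `j = 1`, `9 ∣ y`: no `x`.
About 120 lines. -/
def S_C3 : Prop :=
  ∀ (j m y : ℕ), j ≤ 1 → 0 < m → 0 < y → ∃ (k : ℕ) (r : ℝ), 0 ≤ r ∧ r ≤ 2 ∧
    r / (3 ^ k : ℕ) = k3 j m y / (9 : ℝ) ^ (y.factorization 3) ∧
    Cov (fun x => ∃ D, D % 12 = 11 ∧ Tri D j m x y) (3 ^ k) r

/-- **[XC]** (assume CV, CQ, C2, C3) the number of the `x` in an interval, for given `j, m, y`. Combine the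
primes (`∏` over `y.primeFactors.filter (5 ≤ ·)` by induction); `r ≤ 8 Wt`,
`r / Q = k2 k3 Wt / y²` (`y = ∏ q^(factorization)`). About 100 lines. -/
def S_XC : Prop :=
  ∀ (j m y : ℕ), j ≤ 1 → 0 < m → 0 < y → ∀ α β : ℝ, α ≤ β →
    ∀ T : Finset ℕ, (∀ x ∈ T, α ≤ x ∧ (x : ℝ) ≤ β ∧ ∃ D, D % 12 = 11 ∧ Tri D j m x y) →
      (T.card : ℝ) ≤ k2 j m y * k3 j m y * Wt j m y / y ^ 2 * (β - α) + 8 * Wt j m y

/-- **[WM]** the mean of the weight. Expand the product: `Wt = ∑_{d ∣ ∏ q} jacobiSym (3^j m) d`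
(`∏ (1 + f q) = ∑_{subsets}`); for `d > 1` and `m = r + 24 k` the sum of `jacobiSym (3^j (r + 24 k)) d` over
a full period of `k` modulo `d` is zero (`24` is invertible modulo `d`, `jacobiSym (3^j) d = ± 1`, and there is
`b` with `jacobiSym b d = -1` as `d` is squarefree: `x ↦ b x`), so each such sum is at most `d`. `d = 1`:
`k2 k3` is periodic modulo `24` with mean `Rm` (`m³ ≡ m` modulo `8` for odd `m`). The error is at most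
`∑_{d ∣ ∏ q} 24 · (4/3) (d + 1)`; the number of the `d` is `∏ 2 ≤ ∏ √q ≤ √y`. About 250 lines. -/
def S_WM : Prop :=
  ∃ C : ℝ, 0 < C ∧ ∀ (j y N : ℕ), j ≤ 1 → 0 < y →
    |∑ m ∈ Finset.Icc 1 N, (k2 j m y * k3 j m y * Wt j m y - Rm j y)| ≤ C * y * √(y : ℝ)

/-- **[AB]** Abel summation with a monotone weight. About 40 lines. -/
def S_AB : Prop :=
  ∀ (w F : ℕ → ℝ) (E : ℝ) (M : ℕ), (∀ N ≤ M, |∑ m ∈ Finset.Icc 1 N, w m| ≤ E) → (∀ m, 0 ≤ F m) →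
    Monotone F → |∑ m ∈ Finset.Icc 1 M, w m * F m| ≤ 2 * E * F M

/-- the length of the interval of the `x`, divided by `y²` -/
noncomputable def Hh (A P Q y : ℝ) : ℝ :=
  (√(A - P ^ 2 * y ^ 2) - √(A - Q ^ 2 * y ^ 2)) / y ^ 2

/-- **[YS]** the sum over an arithmetic progression of `y`. `G_P(y) = -√(A - P² y²) / y - P arcsin (P y / √A)`
is continuous for `y > 0` and has the derivative `√(A - P² y²) / y²` except at `y = √A / P` (both sides are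
constant there: `√` and `arcsin` are clamped). `F = G_P - G_Q` has `F' = Hh ≥ 0`, `F(y) → 0` for `y → 0`
(`F ≥ 0` is enough), `F(y) = (π/2) (Q - P)` for `y ≥ √A / P`, so `∫_a^b Hh ≤ (π/2) (Q - P)` for
`0 < a ≤ b`. `Hh` is increasing for `y ≤ y₀ = √A / Q` (`Hh = (Q² - P²) / (√(A - P²y²) + √(A - Q²y²))`) and
decreasing for `y ≥ y₀` (`Hh = √(A - P²y²) / y²`), so every `36 · Hh(a + 36 k)`, except for the two at `y₀`, is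
at most the integral over an adjacent interval of length `36`, and those two are at most `max Hh`
(`Hh ≤ √A / y² ≤ √A` for `y ≥ 1`; `Hh ≤ Q² / √A`: for `y ≤ y₀`, `Hh(y) ≤ Hh(y₀)`, and for `y ≥ y₀`
`Hh ≤ √A / y₀²`). About 250 lines. -/
def S_YS : Prop :=
  ∀ A P Q : ℝ, 0 < A → 0 < P → P ≤ Q → ∀ a K : ℕ, 1 ≤ a →
    ∑ k ∈ Finset.range K, Hh A P Q ((a + 36 * k : ℕ) : ℝ) ≤
      Real.pi / 72 * (Q - P) + 2 * min (√A) (Q ^ 2 / √A)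

/-- **[CA]** (assume XC) the number of the solutions. `M = ⌊(2/π) √X⌋`, `Y = ⌊2 X^(1/4)⌋`; `D` is determined
by `j, m, x, y`; `c² m² y² ≤ D y² ≤ A = 4 · 3^j m³` gives `y² ≤ 12 m / c² ≤ 12 √X / c³ ≤ 4 √X`; the interval
of the `x` is as above. About 120 lines. -/
def S_CA : Prop :=
  ∀ (X : ℕ) (B : Finset ℕ), (∀ D ∈ B, D ≤ X ∧ D % 12 = 11 ∧
      ∃ j ≤ 1, ∃ m x y : ℕ, Tri D j m x y ∧ (m : ℝ) ≤ 2 / Real.pi * √(D : ℝ)) →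
    (B.card : ℝ) ≤ ∑ j ∈ Finset.range 2, ∑ m ∈ Finset.Icc 1 ⌊2 / Real.pi * √(X : ℝ)⌋₊,
      ∑ y ∈ Finset.Icc 1 ⌊2 * √√(X : ℝ)⌋₊,
        (k2 j m y * k3 j m y * Wt j m y * Hh (4 * (3 ^ j * m ^ 3)) (Real.pi / 2 * m) (√(X : ℝ)) y +
          8 * Wt j m y)

/-- **[CB]** (assume WM, AB) the weight may be replaced by its mean. `0 ≤ Wt ≤ ∏ 2 ≤ ∏ √q ≤ √y`;
`y² Hh = g(m) - h(m)`, `g(m) = √(A - c² m² y²)` and `h(m) = √(A - X y²)` are increasing in `m` (`g(m)² =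
m² (4 · 3^j m - c² y²)` if it is positive) and `≤ √(12 M³) ≤ 4 X^(3/4)`; so the error is at most
`∑_{j,y} y^(-2) · 2 C y √y · 8 X^(3/4) + 8 ∑_{j,m,y} √y = O(X^(7/8))` (`∑_{y ≤ Y} y^(-1/2) ≤ 2 √Y`).
About 150 lines. -/
def S_CB : Prop :=
  ∃ C : ℝ, 0 < C ∧ ∀ X : ℕ, 1 ≤ X →
    ∑ j ∈ Finset.range 2, ∑ m ∈ Finset.Icc 1 ⌊2 / Real.pi * √(X : ℝ)⌋₊,
      ∑ y ∈ Finset.Icc 1 ⌊2 * √√(X : ℝ)⌋₊,
        (k2 j m y * k3 j m y * Wt j m y * Hh (4 * (3 ^ j * m ^ 3)) (Real.pi / 2 * m) (√(X : ℝ)) y +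
          8 * Wt j m y) ≤
    ∑ j ∈ Finset.range 2, ∑ m ∈ Finset.Icc 1 ⌊2 / Real.pi * √(X : ℝ)⌋₊,
      ∑ y ∈ Finset.Icc 1 ⌊2 * √√(X : ℝ)⌋₊,
        Rm j y * Hh (4 * (3 ^ j * m ^ 3)) (Real.pi / 2 * m) (√(X : ℝ)) y + C * (X : ℝ) ^ (7 / 8 : ℝ)

/-- **[CC]** (assume YS) the main term. For each `j, m`: group the `y` by their residue `a ∈ [1, 36]` modulo
`36` (`Rm j y` depends only on it, `∑_{a=1}^{36} (Rm 0 a + Rm 1 a) = 4`); `Hh ≥ 0` as `c m ≤ √X`. The sum over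
`y` is at most `∑_a Rm(j,a) ((π/72) (√X - c m) + 2 min(√A, X/√A))`. `∑_{m ≤ M} (√X - c m) ≤
X / (2 c) = X / π`: main term `4 (π/72) (X/π) = X / 18`. Error: `min(√A, X/√A) ≤ 4 m^(3/2)` for
`m ≤ X^(1/3)` and `≤ X / (2 m^(3/2))` for the other `m` (or use `√X` for `m ≤ X^(2/5)` and
`X / (2 m^(3/2)) ≤ X^(2/5)` for the others: `O(X^(9/10))`). About 150 lines. -/
def S_CC : Prop :=
  ∃ C : ℝ, 0 < C ∧ ∀ X : ℕ, 1 ≤ X →
    ∑ j ∈ Finset.range 2, ∑ m ∈ Finset.Icc 1 ⌊2 / Real.pi * √(X : ℝ)⌋₊,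
      ∑ y ∈ Finset.Icc 1 ⌊2 * √√(X : ℝ)⌋₊,
        Rm j y * Hh (4 * (3 ^ j * m ^ 3)) (Real.pi / 2 * m) (√(X : ℝ)) y ≤
      (X : ℝ) / 18 + C * (X : ℝ) ^ (9 / 10 : ℝ)

/-- **[SQ]** squarefree numbers. Those `D ≤ X`, `D ≡ 11` modulo `12`, which are not squarefree are divisible
by `n²` for some `n ≥ 5` prime to `6`, `n² ≤ X`; their number for fixed `n` is at most `X / (12 n²) + 1`
(one class modulo `12 n²`), and `∑_{n = 6k ± 1, k ≥ 1} 1 / n² ≤ 1/25 + 1/49 + ∑_{k ≥ 2} (1/18) / (k² - 1/4)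
≤ 1/10` (telescope). About 120 lines. -/
def S_SQ : Prop :=
  ∃ C : ℝ, 0 < C ∧ ∀ X : ℕ, 75 / 1000 * (X : ℝ) - C * √(X : ℝ) ≤
    (((Finset.Icc 1 X).filter fun D => Squarefree D ∧ D % 12 = 11).card : ℝ)

end Pool.Agent.L7h48.SGP
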