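import Pool.Agent.L7h48.SGP.Stm

/-!
# Project SGP: the final inequality
-/

set_option autoImplicit false
set_option linter.unusedSectionVars false

namespace Pool.Agent.L7h48.SGP

open Pool.Agent.Y715.Gi (QB KK GK)
open Filter

/-- the number of the `D ≤ X` with a solution -/
theorem bad_bound (hCA : S_CA) (hCB : S_CB) (hCC : S_CC) : ∃ C : ℝ, 0 < C ∧ ∀ X : ℕ, 1 ≤ X →
    ∀ B : Finset ℕ, (∀ D ∈ B, D ≤ X ∧ D % 12 = 11 ∧
      ∃ j ≤ 1, ∃ m x y : ℕ, Tri D j m x y ∧ (m : ℝ) ≤ 2 / Real.pi * √(D : ℝ)) →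
    (B.card : ℝ) ≤ (X : ℝ) / 18 + C * (X : ℝ) ^ (9 / 10 : ℝ) := by
  obtain ⟨C₁, hC₁, h1⟩ := hCB
  obtain ⟨C₂, hC₂, h2⟩ := hCC
  refine ⟨C₁ + C₂, by positivity, fun X hX B hB => ?_⟩
  have h3 := hCA X B hB
  have h4 := h1 X hX
  have h5 := h2 X hX
  have hX1 : (1 : ℝ) ≤ X := by exact_mod_cast hX
  have h6 : (X : ℝ) ^ (7 / 8 : ℝ) ≤ (X : ℝ) ^ (9 / 10 : ℝ) :=
    Real.rpow_le_rpow_of_exponent_le hX1 (by norm_num)
  have h7 : C₁ * (X : ℝ) ^ (7 / 8 : ℝ) ≤ C₁ * (X : ℝ) ^ (9 / 10 : ℝ) :=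
    mul_le_mul_of_nonneg_left h6 hC₁.le
  rw [add_mul]
  linarith

/-- the final count: `G` is a set of squarefree numbers `D ≡ 11` modulo `12` such that all the other ones
have a solution -/
theorem quarter (hCA : S_CA) (hCB : S_CB) (hCC : S_CC) (hSQ : S_SQ) (G : ℕ → Prop) [DecidablePred G]
    (hG : ∀ D, Squarefree D → D % 12 = 11 → ¬ G D →
      ∃ j ≤ 1, ∃ m x y : ℕ, Tri D j m x y ∧ (m : ℝ) ≤ 2 / Real.pi * √(D : ℝ)) :
    ∃ X₀ : ℕ, ∀ X ≥ X₀, ((Finset.Icc 1 X).filter fun D => Squarefree D ∧ D % 12 = 11).card ≤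
      4 * ((Finset.Icc 1 X).filter fun D => Squarefree D ∧ D % 12 = 11 ∧ G D).card := by
  obtain ⟨C₁, hC₁, h1⟩ := bad_bound hCA hCB hCC
  obtain ⟨C₂, hC₂, h2⟩ := hSQ
  -- the error terms
  have hlim : Tendsto (fun X : ℕ => ((X : ℝ) ^ (1 / 10 : ℝ))) atTop atTop :=
    (tendsto_rpow_atTop (by norm_num)).comp tendsto_natCast_atTop_atTop
  obtain ⟨X₀, hX₀⟩ := (tendsto_atTop.1 hlim (1500 * (C₁ + C₂))).exists_forall_of_atTop
  refine ⟨max X₀ 1, fun X hX => ?_⟩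
  have hX1 : 1 ≤ X := le_trans (le_max_right _ _) hX
  have hX1' : (1 : ℝ) ≤ X := by exact_mod_cast hX1
  have h3 := hX₀ X (le_trans (le_max_left _ _) hX)
  set A := (Finset.Icc 1 X).filter fun D => Squarefree D ∧ D % 12 = 11 with hA
  set A₁ := (Finset.Icc 1 X).filter fun D => Squarefree D ∧ D % 12 = 11 ∧ G D with hA₁
  set B := A.filter fun D => ¬ G D with hB
  have hcard : A.card = A₁.card + B.card := by
    have h4 : A₁ = A.filter G := by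
      rw [hA, hA₁, Finset.filter_filter]
      congr 1
      ext D
      tauto
    rw [h4, hB]
    exact (Finset.card_filter_add_card_filter_not G).symm
  have h5 := h1 X hX1 B (by
    intro D hD
    rw [hB, Finset.mem_filter, hA, Finset.mem_filter, Finset.mem_Icc] at hD
    obtain ⟨⟨⟨_, hDX⟩, hsq, h12⟩, hnG⟩ := hD
    exact ⟨hDX, h12, hG D hsq h12 hnG⟩)
  have h6 := h2 X
  have hsqrt : √(X : ℝ) ≤ (X : ℝ) ^ (9 / 10 : ℝ) := by
    rw [Real.sqrt_eq_rpow]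
    exact Real.rpow_le_rpow_of_exponent_le hX1' (by norm_num)
  have hXX : (X : ℝ) = (X : ℝ) ^ (1 / 10 : ℝ) * (X : ℝ) ^ (9 / 10 : ℝ) := by
    rw [← Real.rpow_add (by linarith)]
    norm_num
  have hpos : (0 : ℝ) < (X : ℝ) ^ (9 / 10 : ℝ) := Real.rpow_pos_of_pos (by linarith) _
  have h7 : 1500 * (C₁ + C₂) * (X : ℝ) ^ (9 / 10 : ℝ) ≤ X := by
    nth_rewrite 2 [hXX]
    exact mul_le_mul_of_nonneg_right h3 hpos.le
  have h8 : C₂ * √(X : ℝ) ≤ C₂ * (X : ℝ) ^ (9 / 10 : ℝ) := mul_le_mul_of_nonneg_left hsqrt hC₂.le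
  have h9 : (B.card : ℝ) * 4 ≤ 3 * A.card := by
    nlinarith
  have h10 : B.card * 4 ≤ 3 * A.card := by exact_mod_cast h9
  omega

end Pool.Agent.L7h48.SGP
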