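import Pool.Agent.L7h48.SGP.Stm
import Pool.Agent.L7h48.SG.Regd

/-!
# Project SGP: `Good` implies that `G_{K(μ_3)}` is a level
-/

set_option autoImplicit false
set_option linter.unusedSectionVars false

namespace Pool.Agent.L7h48.SGP

open Pool.Agent.Y715.Gi (QB KK GK)
open Pool.Agent.Y715.Nr Pool.Agent.W237.RK
open Pool.Agent.Y715.Df (Cmp exists_cmp)
open Pool.Agent.Z384 (II DD DDs KK_ex fixK exists_conj norm_gen norm_rat)
open Pool.Agent.L7h48.SG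
open Pool.Agent.L7h60.SG (zc zc_zero kummer zc_inj zc_natCast zc_add zc_neg map_zc)

lemma Ram.conj {s : QB} {σ : GK s} (h : Ram 3 σ) (g : GK s) : Ram 3 (g⁻¹ * σ * g) := by
  obtain ⟨q, hq, ι, hq3, τ, hτ, hi⟩ := h
  refine ⟨q, hq, ι.comp ((g.restrictScalars ℚ : QB ≃ₐ[ℚ] QB) : QB →ₐ[ℚ] QB), hq3, τ, fun x => ?_, hi⟩
  show τ (ι (g x)) = ι (g ((g⁻¹ * σ * g) x))
  rw [hτ, ← AlgEquiv.mul_apply g, ← mul_assoc, ← mul_assoc, mul_inv_cancel, one_mul,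
    AlgEquiv.mul_apply]

/-- an element fixed by the decomposition group -/
lemma loc_rat {s : QB} {D : ℕ} (hS : Spl 3 s D) (ι₀ : QB →ₐ[ℚ] PadicAlgCl 3) {y : QB}
    (h : ∀ σ ∈ (DDs ι₀ : Subgroup (GK s)), σ y = y) :
    ∃ t : ℚ_[3], algebraMap ℚ_[3] (PadicAlgCl 3) t = ι₀ y := by
  obtain ⟨r, hr⟩ := hS.loc
  have h1 : (ι₀ s) ^ 2 = (algebraMap ℚ_[3] (PadicAlgCl 3) r) ^ 2 := by
    rw [← map_pow, hS.sq, ← map_pow, hr, map_neg, map_neg, map_natCast, map_natCast]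
  have h2 : ∀ τ : Au 3, τ (ι₀ s) = ι₀ s := by
    intro τ
    rcases sq_eq_sq_iff_eq_or_eq_neg.1 h1 with h2 | h2
    · rw [h2, AlgEquiv.commutes]
    · rw [h2, map_neg, AlgEquiv.commutes]
  obtain ⟨t, ht⟩ := (InfiniteGalois.mem_bot_iff_fixed (k := ℚ_[3]) (K := PadicAlgCl 3) (ι₀ y)).2
    (fun τ => by
      obtain ⟨σ, hσ⟩ := exists_cmp ι₀ τ (h2 τ)
      rw [hσ, h σ ⟨τ, hσ⟩])
  exact ⟨t, ht⟩

/-- an element of the decomposition group which moves `√-3` -/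
lemma exists_dec {s w : QB} {D : ℕ} (hS : Spl 3 s D) (hw : w ^ 2 = -3)
    (ι₀ : QB →ₐ[ℚ] PadicAlgCl 3) : ∃ δ ∈ (DDs ι₀ : Subgroup (GK s)), δ w = -w := by
  have hW : (ι₀ w) ^ 2 = -3 := by rw [← map_pow, hw, map_neg, map_ofNat]
  obtain ⟨τ₀, hτ₀⟩ := exists_neg_tau hW
  obtain ⟨r, hr⟩ := hS.loc
  have h1 : (ι₀ s) ^ 2 = (algebraMap ℚ_[3] (PadicAlgCl 3) r) ^ 2 := by
    rw [← map_pow, hS.sq, ← map_pow, hr, map_neg, map_neg, map_natCast, map_natCast]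
  have h2 : τ₀ (ι₀ s) = ι₀ s := by
    rcases sq_eq_sq_iff_eq_or_eq_neg.1 h1 with h2 | h2
    · rw [h2, AlgEquiv.commutes]
    · rw [h2, map_neg, AlgEquiv.commutes]
  obtain ⟨δ, hδ⟩ := exists_cmp ι₀ τ₀ h2
  refine ⟨δ, ⟨τ₀, hδ⟩, ι₀.injective ?_⟩
  show ι₀ (δ w) = ι₀ (-w)
  rw [← hδ, hτ₀, map_neg]

section reg

variable {s w : QB} {D : ℕ} (hS : Spl 3 s D) (hw : w ^ 2 = -3) (ι₀ : QB →ₐ[ℚ] PadicAlgCl 3)

lemma w_ne' (hw : w ^ 2 = -3) : w ≠ 0 := by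
  rintro rfl
  norm_num at hw

include hS hw in
/-- the minus part -/
lemma reg_minus (hunr : ∀ σ : GK s, Ram 3 σ → σ ∈ Mu 3 s) (hG : Good s ι₀) {τ : GK s}
    (hτ : τ ∈ (DDs ι₀ : Subgroup (GK s))) (hτw : τ w = -w) (φ : GK s → ZMod 3)
    (hφ : φ ∈ HP 3 (Mu 3 s)) (hφR : ∀ σ, Ram 3 σ → φ σ = 0)
    (hφD : ∀ σ ∈ (DDs ι₀ : Subgroup (GK s)), σ ∈ Mu 3 s → φ σ = 0)
    (hinv : ∀ σ ∈ Mu 3 s, φ (τ⁻¹ * σ * τ) = -φ σ) : ∀ σ ∈ Mu 3 s, φ σ = 0 := by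
  have hw0 := w_ne' hw
  have hζ : IsPrimitiveRoot ((-1 + w) / 2) 3 := by
    have : Fact (Nat.Prime 3) := ⟨Nat.prime_three⟩
    rw [IsPrimitiveRoot.iff_orderOf]
    apply orderOf_eq_prime
    · linear_combination ((-3 + w) / 8) * hw
    · intro h
      apply w_irr hw 3
      push_cast
      linear_combination 2 * h
  set ζ : QB := (-1 + w) / 2 with hζd
  have hτζ : τ ζ = ζ⁻¹ := by
    have e1 : τ ζ = (-1 - w) / 2 := by
      rw [hζd, map_div₀, map_add, map_neg, map_one, map_ofNat, hτw]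
      ring
    have e2 : τ ζ * ζ = 1 := by
      rw [e1, hζd]
      linear_combination -hw / 4
    exact eq_inv_of_mul_eq_one_left e2
  obtain ⟨x, hx0, hx⟩ := kummer (K := KK s) (Ω := QB) 3 (Mu 3 s) (isOpen_Mu hw) ζ hζ
    (fun τ hτ => hτ ζ hζ.pow_eq_one) φ hφ
  have hor : ∀ σ : GK s, σ w = w ∨ σ w = -w := by
    intro σ
    have h1 : (σ w) ^ 2 = w ^ 2 := by rw [← map_pow, hw, map_neg, map_ofNat]
    exact sq_eq_sq_iff_eq_or_eq_neg.1 h1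
  have hconj : ∀ σ ∈ Mu 3 s, τ⁻¹ * σ * τ ∈ Mu 3 s := by
    intro σ hσ ξ hξ
    have h1 : (τ ξ) ^ 3 = 1 := by rw [← map_pow, hξ, map_one]
    rw [AlgEquiv.mul_apply, AlgEquiv.mul_apply, hσ _ h1, ← AlgEquiv.mul_apply, inv_mul_cancel]
    rfl
  have hτx : ∀ σ ∈ Mu 3 s, σ (τ x) = zc ζ (φ σ) * τ x := by
    intro σ hσ
    have e1 : σ (τ x) = τ ((τ⁻¹ * σ * τ) x) := by
      rw [← AlgEquiv.mul_apply, ← AlgEquiv.mul_apply]
      congr 1
      group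
    rw [e1, hx _ (hconj σ hσ), map_mul, hinv σ hσ]
    congr 1
    rw [zc_neg hζ.pow_eq_one, map_inv₀]
    unfold zc
    rw [map_pow, hτζ, inv_pow, inv_inv]
  have hττ : τ * τ ∈ Mu 3 s := by
    rw [mem_Mu_iff hw, AlgEquiv.mul_apply, hτw, map_neg, hτw, neg_neg]
  have hττ0 : φ (τ * τ) = 0 := hφD _ (Subgroup.mul_mem _ hτ hτ) hττ
  set y : QB := x * τ x with hy
  have hy0 : y ≠ 0 := mul_ne_zero hx0 ((map_ne_zero τ).2 hx0)
  have hyU : ∀ σ ∈ Mu 3 s, σ y = zc ζ (φ σ + φ σ) * y := by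
    intro σ hσ
    rw [hy, map_mul, hx σ hσ, hτx σ hσ, zc_add hζ.pow_eq_one]
    ring
  have hyτ : τ y = y := by
    rw [hy, map_mul, ← AlgEquiv.mul_apply τ τ, hx _ hττ, hττ0, zc_zero, one_mul, mul_comm]
  -- every element is in `U` or in `τ U`
  have hcase : ∀ σ : GK s, σ ∈ Mu 3 s ∨ τ⁻¹ * σ ∈ Mu 3 s := by
    intro σ
    rcases hor σ with h | h
    · left; rwa [mem_Mu_iff hw]
    · right
      rw [mem_Mu_iff hw, AlgEquiv.mul_apply, h, map_neg]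
      have := congrArg (τ⁻¹ : GK s) hτw
      rw [← AlgEquiv.mul_apply, inv_mul_cancel, AlgEquiv.one_apply, map_neg] at this
      exact this.symm
  have hzc : ∀ a : ZMod 3, (zc ζ a) ^ 3 = 1 := by
    intro a
    unfold zc
    rw [← pow_mul, mul_comm, pow_mul, hζ.pow_eq_one, one_pow]
  have hyK : y ^ 3 ∈ KK s := by
    have h1 : ∀ σ : GK s, σ (y ^ 3) = y ^ 3 := by
      intro σ
      rcases hcase σ with h | h
      · rw [map_pow, hyU σ h, mul_pow, hzc, one_mul]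
      · have e1 : σ = τ * (τ⁻¹ * σ) := by group
        rw [e1, AlgEquiv.mul_apply, map_pow, hyU _ h, mul_pow, hzc, one_mul, map_pow, hyτ]
    obtain ⟨t, ht⟩ := (InfiniteGalois.mem_bot_iff_fixed (k := KK s) (K := QB) (y ^ 3)).2 h1
    have ht' : ((t : KK s) : QB) = y ^ 3 := ht
    rw [← ht']
    exact t.2
  have hRy : RR y := by
    intro q _ ι hq
    have hSq : (ι s) ^ 2 = -((D : ℕ) : PadicAlgCl q) := by
      rw [← map_pow, hS.sq, map_neg, map_natCast]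
    refine norm_gen (p := q) hSq ((map_ne_zero ι).2 hy0) (fun ρ hρ hρS => ?_)
    obtain ⟨σ, hσ⟩ := exists_cmp ι ρ hρS
    have hRam : Ram 3 σ := ⟨q, inferInstance, ι, hq, ρ, hσ, hρ⟩
    rw [hσ, hyU σ (hunr σ hRam), hφR σ hRam, add_zero, zc_zero, one_mul]
  have hRR : ∀ z : QB, z ^ 3 = y ^ 3 → RR z := by
    intro z hz q _ ι hq
    obtain ⟨m, hm⟩ := hRy q ι hq
    refine ⟨m, ?_⟩
    rw [← hm]
    have h1 : ‖ι z‖ ^ 3 = ‖ι y‖ ^ 3 := by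
      rw [← norm_pow, ← norm_pow, ← map_pow, ← map_pow, hz]
    rw [(pow_left_inj₀ (norm_nonneg _) (norm_nonneg _) (by norm_num)).1 h1]
  have hyD : ∀ σ ∈ (DDs ι₀ : Subgroup (GK s)), σ y = y := by
    have h1 : ∀ σ ∈ (DDs ι₀ : Subgroup (GK s)), σ ∈ Mu 3 s → σ y = y := by
      intro σ h2 h3
      rw [hyU σ h3, hφD σ h2 h3, add_zero, zc_zero, one_mul]
    intro σ hσ
    rcases hcase σ with h | h
    · exact h1 σ hσ h
    · have e1 : σ = τ * (τ⁻¹ * σ) := by group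
      rw [e1, AlgEquiv.mul_apply, h1 _ (Subgroup.mul_mem _ (Subgroup.inv_mem _ hτ) hσ) h, hyτ]
  obtain ⟨t, ht⟩ := loc_rat hS ι₀ hyD
  obtain ⟨y₀, hy₀, hy₀3⟩ := hG (y ^ 3) hyK (pow_ne_zero 3 hy0) hRR ⟨t, by rw [ht, map_pow]⟩
  have hy₀0 : y₀ ≠ 0 := by
    rintro rfl
    rw [zero_pow (by norm_num)] at hy₀3
    exact pow_ne_zero 3 hy0 hy₀3.symm
  intro σ hσ
  have h1 : (y / y₀) ^ 3 = 1 := by rw [div_pow, hy₀3, div_self (pow_ne_zero 3 hy0)]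
  have h2 : σ (y / y₀) = y / y₀ := hσ _ h1
  have h3 : σ y₀ = y₀ := fixK σ hy₀
  have h4 : σ y = y := by
    rw [map_div₀, h3] at h2
    exact (div_left_inj' hy₀0).1 h2
  have h5 : zc ζ (φ σ + φ σ) = 1 := by
    have h6 := hyU σ hσ
    rw [h4] at h6
    exact (mul_right_cancel₀ hy0 ((one_mul y).trans h6)).symm
  have h7 : φ σ + φ σ = 0 := by
    apply zc_inj hζ
    rw [h5]
    exact zc_zero.symm
  revert h7
  generalize φ σ = a
  revert a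
  decide

include hS hw in
/-- the plus part -/
lemma reg_plus (hTRV : S_TRV) (hunr : ∀ σ : GK s, Ram 3 σ → σ ∈ Mu 3 s)
    (hG : ∀ ι₀ : QB →ₐ[ℚ] PadicAlgCl 3, Good s ι₀) {τ : GK s}
    (hτ : τ ∈ (DDs ι₀ : Subgroup (GK s))) (hτw : τ w = -w) (φ : GK s → ZMod 3)
    (hφ : φ ∈ HP 3 (Mu 3 s)) (hφR : ∀ σ, Ram 3 σ → φ σ = 0)
    (hφD : ∀ σ ∈ (DDs ι₀ : Subgroup (GK s)), σ ∈ Mu 3 s → φ σ = 0)
    (hinv : ∀ σ ∈ Mu 3 s, φ (τ⁻¹ * σ * τ) = φ σ) : ∀ σ ∈ Mu 3 s, φ σ = 0 := by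
  classical
  have hw0 := w_ne' hw
  have hor : ∀ σ : GK s, σ w = w ∨ σ w = -w := by
    intro σ
    have h1 : (σ w) ^ 2 = w ^ 2 := by rw [← map_pow, hw, map_neg, map_ofNat]
    exact sq_eq_sq_iff_eq_or_eq_neg.1 h1
  have hne : ∀ σ : GK s, σ ∉ Mu 3 s → σ w = -w := by
    intro σ h
    rw [mem_Mu_iff hw] at h
    exact (hor σ).resolve_left h
  have hni : ∀ σ : GK s, σ w = -w → σ ∉ Mu 3 s := by
    intro σ h h'
    rw [mem_Mu_iff hw, h] at h'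
    exact hw0 (by linear_combination (-1 / 2 : QB) * h')
  have hτi : (τ⁻¹ : GK s) w = -w := by
    have := congrArg (τ⁻¹ : GK s) hτw
    rw [← AlgEquiv.mul_apply, inv_mul_cancel, AlgEquiv.one_apply, map_neg] at this
    exact (neg_eq_iff_eq_neg.2 this).symm
  have hmul : ∀ σ : GK s, σ ∉ Mu 3 s → σ * τ⁻¹ ∈ Mu 3 s := by
    intro σ h
    rw [mem_Mu_iff hw, AlgEquiv.mul_apply, hτi, map_neg, hne σ h, neg_neg]
  have hττ : τ * τ ∈ Mu 3 s := by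
    rw [mem_Mu_iff hw, AlgEquiv.mul_apply, hτw, map_neg, hτw, neg_neg]
  have hττ0 : φ (τ * τ) = 0 := hφD _ (Subgroup.mul_mem _ hτ hτ) hττ
  have hconj : ∀ σ ∈ Mu 3 s, τ * σ * τ⁻¹ ∈ Mu 3 s := by
    intro σ hσ ξ hξ
    have h1 : ((τ⁻¹ : GK s) ξ) ^ 3 = 1 := by rw [← map_pow, hξ, map_one]
    rw [AlgEquiv.mul_apply, AlgEquiv.mul_apply, hσ _ h1, ← AlgEquiv.mul_apply, mul_inv_cancel]
    rfl
  have hinv' : ∀ σ ∈ Mu 3 s, φ (τ * σ * τ⁻¹) = φ σ := by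
    intro σ hσ
    have := hinv _ (hconj σ hσ)
    rw [← this]
    congr 1
    group
  set ψ : GK s → ZMod 3 := fun σ => if σ ∈ Mu 3 s then φ σ else φ (σ * τ⁻¹) with hψ
  have hψ1 : ∀ σ ∈ Mu 3 s, ψ σ = φ σ := fun σ h => if_pos h
  have hψ2 : ∀ σ, σ ∉ Mu 3 s → ψ σ = φ (σ * τ⁻¹) := fun σ h => if_neg h
  obtain ⟨hφc, hφm, hφ0⟩ := hφ
  have hψHP : ψ ∈ HP 3 (⊤ : Subgroup (GK s)) := by
    refine ⟨?_, ?_, fun x hx => absurd (Subgroup.mem_top x) hx⟩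
    · have hU := isOpen_Mu (s := s) hw
      have hUc : IsClosed (Mu 3 s : Set (GK s)) := Subgroup.isClosed_of_isOpen _ hU
      rw [IsLocallyConstant.iff_exists_open]
      intro σ
      by_cases h : σ ∈ Mu 3 s
      · obtain ⟨V, hV, hσV, hV2⟩ := (IsLocallyConstant.iff_exists_open _).1 hφc σ
        refine ⟨V ∩ Mu 3 s, hV.inter hU, ⟨hσV, h⟩, fun x hx => ?_⟩
        rw [hψ1 x hx.2, hψ1 σ h, hV2 x hx.1]
      · obtain ⟨V, hV, hσV, hV2⟩ := (IsLocallyConstant.iff_exists_open _).1 hφc (σ * τ⁻¹)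
        refine ⟨(fun x => x * τ⁻¹) ⁻¹' V ∩ (Mu 3 s : Set (GK s))ᶜ,
          (hV.preimage (continuous_mul_const _)).inter hUc.isOpen_compl, ⟨hσV, h⟩, fun x hx => ?_⟩
        rw [hψ2 x hx.2, hψ2 σ h, hV2 _ hx.1]
    · intro σ _ σ' _
      by_cases h : σ ∈ Mu 3 s <;> by_cases h' : σ' ∈ Mu 3 s
      · rw [hψ1 _ (Subgroup.mul_mem _ h h'), hψ1 σ h, hψ1 σ' h', hφm σ h σ' h']
      · have h2 : σ * σ' ∉ Mu 3 s := fun h3 => h' ((Subgroup.mul_mem_cancel_left _ h).1 h3)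
        rw [hψ2 _ h2, hψ1 σ h, hψ2 σ' h', mul_assoc, hφm σ h _ (hmul σ' h')]
      · have h2 : σ * σ' ∉ Mu 3 s := fun h3 => h ((Subgroup.mul_mem_cancel_right _ h').1 h3)
        have e1 : σ * σ' * τ⁻¹ = (σ * τ⁻¹) * (τ * σ' * τ⁻¹) := by group
        rw [hψ2 _ h2, hψ2 σ h, hψ1 σ' h', e1, hφm _ (hmul σ h) _ (hconj σ' h'), hinv' σ' h']
      · have h2 : σ * σ' ∈ Mu 3 s := by
          rw [mem_Mu_iff hw, AlgEquiv.mul_apply, hne σ' h', map_neg, hne σ h, neg_neg]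
        have e1 : σ * σ' = (σ * τ⁻¹) * ((τ * (σ' * τ⁻¹) * τ⁻¹) * (τ * τ)) := by group
        rw [hψ1 _ h2, hψ2 σ h, hψ2 σ' h', e1, hφm _ (hmul σ h) _
          (Subgroup.mul_mem _ (hconj _ (hmul σ' h')) hττ), hφm _ (hconj _ (hmul σ' h')) _ hττ,
          hinv' _ (hmul σ' h'), hττ0, add_zero]
  have hψ0 := hTRV s D hS hG ι₀ ψ hψHP (fun σ h => by rw [hψ1 σ (hunr σ h), hφR σ h])
    (fun σ hσ => by
      by_cases h : σ ∈ Mu 3 s
      · rw [hψ1 σ h, hφD σ hσ h]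
      · rw [hψ2 σ h]
        exact hφD _ (Subgroup.mul_mem _ hσ (Subgroup.inv_mem _ hτ)) (hmul σ h))
  intro σ hσ
  rw [← hψ1 σ hσ, hψ0]
  rfl

end reg

/-- **GL** -/
theorem s_GL (hD3 : S_D3) (hTRV : S_TRV) : S_GL := by
  intro s D hS hG ι₀
  obtain ⟨w, hw⟩ : ∃ w : QB, w ^ 2 = -3 := IsAlgClosed.exists_pow_nat_eq (-3) (by norm_num)
  obtain ⟨τ, hτD, hτ⟩ := exists_dec hS hw ι₀
  have hw0 := w_ne' hw
  have hor : ∀ σ : GK s, σ w = w ∨ σ w = -w := by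
    intro σ
    have h1 : (σ w) ^ 2 = w ^ 2 := by rw [← map_pow, hw, map_neg, map_ofNat]
    exact sq_eq_sq_iff_eq_or_eq_neg.1 h1
  have hunr : ∀ σ : GK s, Ram 3 σ → σ ∈ Mu 3 s := by
    rintro σ ⟨q, hq, ι, hq3, hσ⟩ ζ hζ
    refine hD3 3 s q ι hq3 σ hσ ζ 1 ?_ ?_
    · rw [pow_one, hζ]
      exact ⟨one_ne_zero, 0, by simpa using isIntegral_one, by simpa using isIntegral_one⟩
    · rw [pow_one, hζ, map_one]
  have hτi : (τ⁻¹ : GK s) w = -w := by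
    have := congrArg (τ⁻¹ : GK s) hτ
    rw [← AlgEquiv.mul_apply, inv_mul_cancel, AlgEquiv.one_apply, map_neg] at this
    exact (neg_eq_iff_eq_neg.2 this).symm
  refine ⟨isOpen_Mu hw, ?_, ?_, fun σ hσ => hσ, hunr, ?_, ?_⟩
  · constructor
    intro σ hσ g
    intro ζ hζ
    have h1 : (g⁻¹ : GK s) ζ ^ 3 = 1 := by rw [← map_pow, hζ, map_one]
    rw [AlgEquiv.mul_apply, AlgEquiv.mul_apply, hσ _ h1, ← AlgEquiv.mul_apply, mul_inv_cancel]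
    rfl
  · have h2 : (Mu 3 s).index = 2 := by
      rw [Subgroup.index_eq_two_iff]
      refine ⟨τ, fun b => ?_⟩
      rw [mem_Mu_iff hw, mem_Mu_iff hw, AlgEquiv.mul_apply, hτ, map_neg]
      rcases hor b with h | h
      · right
        refine ⟨h, ?_⟩
        rw [h]
        exact fun h' => hw0 (by linear_combination (-1 / 2 : QB) * h')
      · left
        refine ⟨by rw [h, neg_neg], ?_⟩
        rw [h]
        exact fun h' => hw0 (by linear_combination (-1 / 2 : QB) * h')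
    rw [h2]
    norm_num
  · intro g
    rcases hor g with h | h
    · exact ⟨1, Subgroup.one_mem _, by rw [inv_one, one_mul, mem_Mu_iff hw, h]⟩
    · exact ⟨τ, hτD, by rw [mem_Mu_iff hw, AlgEquiv.mul_apply, h, map_neg, hτi, neg_neg]⟩
  · intro φ hφ hφR hφD
    obtain ⟨hφc, hφm, hφ0⟩ := hφ
    have hφ' : φ ∈ HP 3 (Mu 3 s) := ⟨hφc, hφm, hφ0⟩
    have hconj : ∀ σ, σ ∈ Mu 3 s ↔ τ⁻¹ * σ * τ ∈ Mu 3 s := by
      intro σ
      rw [mem_Mu_iff hw, mem_Mu_iff hw, AlgEquiv.mul_apply, AlgEquiv.mul_apply, hτ, map_neg]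
      constructor
      · intro h
        rw [h, map_neg, hτi, neg_neg]
      · intro h
        rcases hor σ with h1 | h1
        · exact h1
        · exfalso
          rw [h1, neg_neg, hτi] at h
          exact hw0 (by linear_combination (-1 / 2 : QB) * h)
    set φt : GK s → ZMod 3 := fun σ => φ (τ⁻¹ * σ * τ) with hφt
    have hφt' : φt ∈ HP 3 (Mu 3 s) := by
      refine ⟨?_, ?_, ?_⟩
      · exact hφc.comp_continuous ((continuous_mul_const _).comp (continuous_const_mul _))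
      · intro x hx y hy
        have e1 : τ⁻¹ * (x * y) * τ = (τ⁻¹ * x * τ) * (τ⁻¹ * y * τ) := by group
        show φ _ = φ _ + φ _
        rw [e1, hφm _ ((hconj x).1 hx) _ ((hconj y).1 hy)]
      · intro x hx
        exact hφ0 _ (fun h => hx ((hconj x).2 h))
    have hφtR : ∀ σ, Ram 3 σ → φt σ = 0 := fun σ h => hφR _ (Ram.conj h τ)
    have hφtD : ∀ σ ∈ (DDs ι₀ : Subgroup (GK s)), σ ∈ Mu 3 s → φt σ = 0 := fun σ h h' =>
      hφD _ (Subgroup.mul_mem _ (Subgroup.mul_mem _ (Subgroup.inv_mem _ hτD) h) hτD)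
        ((hconj σ).1 h')
    have hττ : τ * τ ∈ Mu 3 s := by
      rw [mem_Mu_iff hw, AlgEquiv.mul_apply, hτ, map_neg, hτ, neg_neg]
    have hφtt : ∀ σ ∈ Mu 3 s, φt (τ⁻¹ * σ * τ) = φ σ := by
      intro σ hσ
      have e1 : τ⁻¹ * (τ⁻¹ * σ * τ) * τ = (τ * τ)⁻¹ * (σ * (τ * τ)) := by group
      show φ _ = _
      have h1 : φ ((τ * τ)⁻¹) = 0 := hφD _ (Subgroup.inv_mem _ (Subgroup.mul_mem _ hτD hτD))
        (Subgroup.inv_mem _ hττ)
      have h2 : φ (τ * τ) = 0 := hφD _ (Subgroup.mul_mem _ hτD hτD) hττ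
      rw [e1, hφm _ (Subgroup.inv_mem _ hττ) _ (Subgroup.mul_mem _ hσ hττ), hφm _ hσ _ hττ, h1, h2,
        zero_add, add_zero]
    have hp := reg_plus hS hw ι₀ hTRV hunr hG hτD hτ (φ + φt) ((HP 3 (Mu 3 s)).add_mem hφ' hφt')
      (fun σ h => by rw [Pi.add_apply, hφR σ h, hφtR σ h, add_zero])
      (fun σ h h' => by rw [Pi.add_apply, hφD σ h h', hφtD σ h h', add_zero])
      (fun σ h => by
        rw [Pi.add_apply, Pi.add_apply, hφtt σ h, add_comm])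
    have hm := reg_minus hS hw ι₀ hunr (hG ι₀) hτD hτ (φ - φt)
      ((HP 3 (Mu 3 s)).sub_mem hφ' hφt')
      (fun σ h => by rw [Pi.sub_apply, hφR σ h, hφtR σ h, sub_zero])
      (fun σ h h' => by rw [Pi.sub_apply, hφD σ h h', hφtD σ h h', sub_zero])
      (fun σ h => by
        rw [Pi.sub_apply, Pi.sub_apply, hφtt σ h, neg_sub])
    funext σ
    by_cases hσ : σ ∈ Mu 3 s
    · have h1 := hp σ hσ
      have h2 := hm σ hσ
      rw [Pi.add_apply] at h1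
      rw [Pi.sub_apply] at h2
      show φ σ = 0
      revert h1 h2
      generalize φ σ = a
      generalize φt σ = b
      revert a b
      decide
    · exact hφ0 σ hσ

end Pool.Agent.L7h48.SGP
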