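import Pool.Agent.L7h48.SGP.GL

/-!
# Project SGP: a field which is not `Good` gives a solution of `x² + D y² = 4 · 3^j m³`
-/

set_option autoImplicit false
set_option linter.unusedSectionVars false

namespace Pool.Agent.L7h48.SGP

open Pool.Agent.Y715.Gi (QB KK GK)
open Pool.Agent.Y715.Nr Pool.Agent.W237.RK
open Pool.Agent.Z384 (II DD DDs KK_ex fixK exists_conj)
open Pool.Agent.L7h48.SG
open Pool.Agent.L7h15.SG (em pid)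
open NumberField

/-- `3` splits in `ℚ(√-D)` if `D ≡ 2` modulo `3` -/
lemma exists_root {D : ℕ} (hD : D % 3 = 2) : ∃ t : ℚ_[3], t ^ 2 = -(D : ℚ_[3]) := by
  have h := hensels_lemma (p := 3) (F := (Polynomial.X ^ 2 + Polynomial.C ((D : ℕ) : ℤ_[3]) : Polynomial ℤ_[3]))
    (a := 1) (by
      have h1 : Polynomial.aeval (1 : ℤ_[3]) (Polynomial.X ^ 2 + Polynomial.C ((D : ℕ) : ℤ_[3]) :
          Polynomial ℤ_[3]) = ((1 + D : ℕ) : ℤ_[3]) := by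
        simp
      have h2 : Polynomial.aeval (1 : ℤ_[3]) (Polynomial.derivative
          (Polynomial.X ^ 2 + Polynomial.C ((D : ℕ) : ℤ_[3]) : Polynomial ℤ_[3])) = ((2 : ℕ) : ℤ_[3]) := by
        simp
        norm_num
      have e2 : ‖((2 : ℕ) : ℤ_[3])‖ = 1 := by
        rw [PadicInt.norm_natCast_eq_one_iff]
        decide
      have e1 : ‖((1 + D : ℕ) : ℤ_[3])‖ < 1 := by
        have h3 : ((1 + D : ℕ) : ℤ_[3]) = (((1 + D : ℕ) : ℤ) : ℤ_[3]) := by push_cast; rfl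
        rw [h3, PadicInt.norm_int_lt_one_iff_dvd]
        omega
      rw [h1, h2, e2]
      linarith)
  obtain ⟨z, hz, _⟩ := h
  refine ⟨(z : ℚ_[3]), ?_⟩
  have h3 : z ^ 2 + (D : ℤ_[3]) = 0 := by simpa using hz
  have h4 : z ^ 2 = -(D : ℤ_[3]) := by linear_combination h3
  exact_mod_cast congrArg (fun y : ℤ_[3] => (y : ℚ_[3])) h4

lemma spl_of {D : ℕ} {s : QB} (hD : D % 3 = 2) (hs : s ^ 2 = -(D : QB)) : Spl 3 s D where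
  odd := by norm_num
  pos := by omega
  sq := hs
  loc := exists_root hD

/-- half of `x' + y' s` is integral if `x' ≡ y'` modulo `2` -/
lemma half_int {D : ℕ} (hD : D % 4 = 3) {s : QB} (hs : s ^ 2 = -(D : QB)) (y' k : ℤ) :
    ∃ b' : 𝓞 (KK s), em s b' = (((y' + 2 * k : ℤ) : QB) + (y' : QB) * s) / 2 := by
  obtain ⟨n, hn⟩ : ∃ n : ℤ, (D : ℤ) = 4 * n + 3 := ⟨(D : ℤ) / 4, by omega⟩
  have hnQ : (D : QB) = 4 * n + 3 := by exact_mod_cast congrArg (fun z : ℤ => (z : QB)) hn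
  set c : ℤ := y' ^ 2 + y' * k + k ^ 2 + n * y' ^ 2 with hc
  have hz2 : ((((y' + 2 * k : ℤ) : QB) + (y' : QB) * s) / 2) ^ 2 -
      ((y' + 2 * k : ℤ) : QB) * ((((y' + 2 * k : ℤ) : QB) + (y' : QB) * s) / 2) + (c : QB) = 0 := by
    rw [hc]
    push_cast
    rw [hnQ] at hs
    linear_combination ((y' : QB) ^ 2 / 4) * hs
  have hzi : IsIntegral ℤ ((((y' + 2 * k : ℤ) : QB) + (y' : QB) * s) / 2) := by
    refine ⟨Polynomial.X ^ 2 + (Polynomial.C (-(y' + 2 * k)) * Polynomial.X + Polynomial.C c),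
      Polynomial.monic_X_pow_add (by compute_degree!), ?_⟩
    rw [Polynomial.eval₂_add, Polynomial.eval₂_add, Polynomial.eval₂_mul, Polynomial.eval₂_pow,
      Polynomial.eval₂_X, Polynomial.eval₂_C, Polynomial.eval₂_C]
    have e1 : (algebraMap ℤ QB) (-(y' + 2 * k)) = -(((y' + 2 * k : ℤ) : QB)) := by
      rw [map_neg]; rfl
    have e2 : (algebraMap ℤ QB) c = (c : QB) := rfl
    rw [e1, e2]
    linear_combination hz2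
  have hzK : (((y' + 2 * k : ℤ) : QB) + (y' : QB) * s) / 2 ∈ KK s := by
    refine div_mem (add_mem (intCast_mem _ _) (mul_mem (intCast_mem _ _) ?_)) (ofNat_mem _ 2)
    exact IntermediateField.mem_adjoin_simple_self ℚ s
  exact Pool.Agent.L7h15.SG.em_surj hzK hzi

lemma em_inj' {s : QB} {a b : 𝓞 (KK s)} (h : em s a = em s b) : a = b :=
  ((FaithfulSMul.algebraMap_injective (KK s) QB).comp
    (FaithfulSMul.algebraMap_injective (𝓞 (KK s)) (KK s))) h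

/-- the final arithmetic -/
lemma tri_arith {D j m : ℕ} {x y : ℤ} (hm0 : 0 < m) (hy0 : y ≠ 0) (hxy : (2 : ℤ) ∣ x - y)
    (hb2 : ¬ ((4 : ℤ) ∣ x - y ∧ (2 : ℤ) ∣ x ∧ (2 : ℤ) ∣ y))
    (heq : x ^ 2 + D * y ^ 2 = 4 * (3 ^ j * (m : ℤ) ^ 3))
    (hq : ∀ q : ℕ, q.Prime → 5 ≤ q → (q : ℤ) ∣ y → q ∣ m → ¬ (q : ℤ) ^ 2 ∣ y ∧ (q : ℤ) ^ 2 ∣ x)
    (key : (j = 0 ∧ m % 3 = 1 ∧ (9 : ℤ) ∣ y) ∨ (j = 0 ∧ m % 3 = 2 ∧ (9 : ℤ) ∣ x ∧ ¬ (3 : ℤ) ∣ y) ∨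
    (j = 0 ∧ m % 3 = 0 ∧ ((9 : ℤ) ∣ x - 1 ∨ (9 : ℤ) ∣ x + 1) ∧ ¬ (3 : ℤ) ∣ y) ∨
    (j = 1 ∧ m % 3 = 1 ∧ ((9 : ℤ) ∣ x - 4 ∨ (9 : ℤ) ∣ x + 4) ∧ ¬ (3 : ℤ) ∣ y) ∨
    (j = 1 ∧ m % 3 = 2 ∧ ((9 : ℤ) ∣ x - 2 ∨ (9 : ℤ) ∣ x + 2) ∧ ¬ (3 : ℤ) ∣ y) ∨
    (j = 1 ∧ m % 3 = 0 ∧ ((9 : ℤ) ∣ x - 1 ∨ (9 : ℤ) ∣ x + 1) ∧ ¬ (3 : ℤ) ∣ y) ∨
    (j = 1 ∧ m % 3 = 0 ∧ ((27 : ℤ) ∣ x - 3 ∨ (27 : ℤ) ∣ x + 3) ∧ (3 : ℤ) ∣ y ∧ ¬ (9 : ℤ) ∣ y)) :
    Tri D j m x.natAbs y.natAbs := by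
  have hX : ((x.natAbs : ℕ) : ℤ) ^ 2 = x ^ 2 := Int.natAbs_sq x
  have hY : ((y.natAbs : ℕ) : ℤ) ^ 2 = y ^ 2 := Int.natAbs_sq y
  refine ⟨?_, hm0, Int.natAbs_pos.2 hy0, ?_, ?_, ?_⟩
  · have h6 : (((x.natAbs ^ 2 + D * y.natAbs ^ 2 : ℕ) : ℤ)) = ((4 * (3 ^ j * m ^ 3) : ℕ) : ℤ) := by
      rw [Nat.cast_add, Nat.cast_mul, Nat.cast_pow, Nat.cast_pow, hX, hY, heq]
      push_cast
      rfl
    exact_mod_cast h6
  · clear heq hq key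
    by_cases hx2 : (2 : ℤ) ∣ x
    · have hy2 : (2 : ℤ) ∣ y := by omega
      have h4 : ¬ (4 : ℤ) ∣ x - y := fun h => hb2 ⟨h, hx2, hy2⟩
      omega
    · omega
  · clear heq hq hb2 hxy hX hY
    rcases key with ⟨h1, h4, h5⟩ | ⟨h1, h4, h5, h6⟩ | ⟨h1, h4, h5, h6⟩ | ⟨h1, h4, h5, h6⟩ |
      ⟨h1, h4, h5, h6⟩ | ⟨h1, h4, h5, h6⟩ | ⟨h1, h4, h5, h6, h7⟩
    · left; omega
    · right; left; omega
    · right; right; left; omega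
    · right; right; right; left; omega
    · right; right; right; right; left; omega
    · right; right; right; right; right; left; omega
    · right; right; right; right; right; right; omega
  · intro q hqp hq5 hqy hqm
    have h4 := hq q hqp hq5 (Int.natCast_dvd.2 hqy) hqm
    refine ⟨fun h5 => h4.1 ?_, ?_⟩
    · have := Int.natCast_dvd.2 h5
      push_cast at this
      exact this
    · have : ((q ^ 2 : ℕ) : ℤ) ∣ x := by push_cast; exact h4.2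
      exact Int.natCast_dvd.1 this

/-- **TRI** -/
theorem s_TRI (hID : S_ID) (hR0 : S_R0) (hR2 : S_R2) (hR3 : S_R3) (hRQ : S_RQ) : S_TRI := by
  intro D hsq hD s hs ι₀ hG
  obtain ⟨g, hg⟩ := exists_conj hs (by omega : D ≠ 0)
  obtain ⟨ι₁, hι₁⟩ : ∃ ι₁ : QB →ₐ[ℚ] PadicAlgCl 3, ι₁ s = -ι₀ s :=
    ⟨ι₀.comp (g : QB →ₐ[ℚ] QB), by
      show ι₀ (g s) = _
      rw [hg, map_neg]⟩
  obtain ⟨I, b, j, hdta, hnorm⟩ := hID D hsq hD s hs ι₀ ι₁ hι₁ hG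
  obtain ⟨x, y, hb, hxy, hy0, heq⟩ := hR0 D hsq hD s hs ι₀ ι₁ hι₁ I b j hdta
  obtain ⟨h2, h3⟩ := hR2 D hsq hD s hs ι₀ ι₁ hι₁ I b j hdta
  have hq := hRQ D hsq hD s hs ι₀ ι₁ hι₁ I b j hdta x y hb hy0 heq
  -- the local root
  obtain ⟨r, hr⟩ := exists_root (by omega : D % 3 = 2)
  obtain ⟨t, ht, hts⟩ : ∃ t : ℚ_[3], t ^ 2 = -(D : ℚ_[3]) ∧
      ι₀ s = algebraMap ℚ_[3] (PadicAlgCl 3) t := by
    have h1 : (ι₀ s) ^ 2 = (algebraMap ℚ_[3] (PadicAlgCl 3) r) ^ 2 := by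
      rw [← map_pow, hs, ← map_pow, hr, map_neg, map_neg, map_natCast, map_natCast]
    rcases sq_eq_sq_iff_eq_or_eq_neg.1 h1 with h2 | h2
    · exact ⟨r, hr, h2⟩
    · exact ⟨-r, by rw [neg_sq, hr], by rw [h2, map_neg]⟩
  obtain ⟨v, hv⟩ := hdta.cube
  have hj := hdta.j1
  have hI0 := hdta.I0
  clear hdta hG hID hR0 hR2 hRQ
  generalize hm : Ideal.absNorm I = m at *
  have hm0 : 0 < m := by
    rw [Nat.pos_iff_ne_zero, ← hm, Ne, Ideal.absNorm_eq_zero_iff]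
    exact hI0
  have e0 : ι₀ (em s b) = algebraMap ℚ_[3] (PadicAlgCl 3) (((x : ℚ_[3]) + y * t) / 2) := by
    rw [hb]
    simp only [map_div₀, map_add, map_mul, map_intCast, map_ofNat, hts]
  have e1 : ι₁ (em s b) = algebraMap ℚ_[3] (PadicAlgCl 3) (((x : ℚ_[3]) - y * t) / 2) := by
    rw [hb]
    simp only [map_div₀, map_add, map_sub, map_mul, map_intCast, map_ofNat, hι₁, hts]
    ring
  have hv' : v ^ 3 = ((x : ℚ_[3]) + y * t) / 2 := by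
    apply (algebraMap ℚ_[3] (PadicAlgCl 3)).injective
    rw [map_pow, hv, e0]
  have hn0 : ‖ι₀ (em s b)‖ = ‖((x : ℚ_[3]) + y * t) / 2‖ := by
    rw [e0]
    exact PadicAlgCl.norm_extends 3 _
  have hn1 : ‖ι₁ (em s b)‖ = ‖((x : ℚ_[3]) - y * t) / 2‖ := by
    rw [e1]
    exact PadicAlgCl.norm_extends 3 _
  rw [hn0, hn1] at h3
  have key := hR3 D j m x y t v hj hm0 (by omega) ht heq hv' h3
  refine ⟨j, hj, m, x.natAbs, y.natAbs, tri_arith hm0 hy0 hxy ?_ heq hq key, hnorm⟩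
  rintro ⟨⟨k, hk⟩, ⟨x', hx'⟩, ⟨y', hy'⟩⟩
  have hk' : x' = y' + 2 * k := by omega
  obtain ⟨b', hb'⟩ := half_int (by omega : D % 4 = 3) hs y' k
  apply h2 b'
  apply em_inj'
  rw [map_mul, map_ofNat, hb', hb, hx', hy', hk']
  push_cast
  ring

end Pool.Agent.L7h48.SGP
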