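import Pool.Agent.L7h48.SG.Fin
import Pool.Agent.L7h48.SGP.GL
import Pool.Agent.L7h48.SGP.TRI
import Pool.Agent.L7h48.SGP.FIN
import Pool.Agent.L7h23.SGP.C2
import Pool.Agent.L7h23.SGP.Cc
import Pool.Agent.L7h23.SGP.LC
import Pool.Agent.L7h23.SGP.XC
import Pool.Agent.L7h37.SGP.MK
import Pool.Agent.L7h37.SGP.R3
import Pool.Agent.L7h51.SGP.U1
import Pool.Agent.L7h51.SGP.U2
import Pool.Agent.L7h51.SGP.WM
import Pool.Agent.L7h53.SGP.Ys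
import Pool.Agent.L7h69.SGP.RQ
import Pool.Agent.L7h69.SGP.TRV
import Pool.Agent.L7h69.SGP.INJ
import Pool.Agent.L7h73.SGP.Id
import Pool.Agent.L7h73.SGP.R0
import Pool.Agent.L7h73.SGP.R2
import Pool.Agent.L7h75.SGP.CA
import Pool.Agent.L7h75.SGP.CB
import Pool.Agent.L7h75.SGP.CC
import Pool.Agent.L7h75.SGP.SQ

/-!
# Project SGP: the parts together
-/

set_option autoImplicit false

namespace Pool.Agent.L7h48.SGP

theorem f_TRV : S_TRV :=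
  Pool.Agent.L7h69.SGP.s_TRV (Pool.Agent.L7h51.SGP.s_U2 Pool.Agent.L7h51.SGP.s_U1)
    Pool.Agent.L7h23.SGP.s_LC Pool.Agent.L7h69.SGP.s_INJ

theorem f_GL : S_GL := s_GL Pool.Agent.L7h79.SG.s_D3 f_TRV

theorem f_TRI : S_TRI :=
  s_TRI (Pool.Agent.L7h73.SGP.s_ID Pool.Agent.L7h37.SGP.s_MK) Pool.Agent.L7h73.SGP.s_R0
    Pool.Agent.L7h73.SGP.s_R2 Pool.Agent.L7h37.SGP.s_R3 Pool.Agent.L7h69.SGP.s_RQ

theorem f_XC : S_XC :=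
  Pool.Agent.L7h23.SGP.s_XC Pool.Agent.L7h23.SGP.s_CV Pool.Agent.L7h23.SGP.s_CQ
    Pool.Agent.L7h23.SGP.s_C2 Pool.Agent.L7h23.SGP.s_C3

theorem f_CA : S_CA := Pool.Agent.L7h75.SGP.CAx.s_CA f_XC

theorem f_CB : S_CB :=
  Pool.Agent.L7h75.SGP.CBx.s_CB Pool.Agent.L7h51.SGP.s_WM Pool.Agent.L7h51.SGP.s_AB

theorem f_CC : S_CC := Pool.Agent.L7h75.SGP.s_CC Pool.Agent.L7h53.SGP.s_YS

theorem f_SQ : S_SQ := Pool.Agent.L7h75.SGP.s_SQ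

end Pool.Agent.L7h48.SGP
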